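import Pool.Agent.Helper70.Matching.Specs4

/-! Packet M-C10. -/

set_option autoImplicit false
open Finset Filter Topology

namespace Pool.Agent.Helper16.Matching

open Pool.Agent.Helper70.Matching

theorem dvd_rsn {s n : ℕ} (hs : 1 ≤ s) (hn : s ≤ n) : s ∣ rsn n := by
  unfold rsn
  exact Dvd.dvd.mul_left (Nat.dvd_factorial hs hn) _

theorem Bn_sq_le {n : ℕ} (hk : 0 < kn n) (h : ((Bn n * kn n : ℕ) : ℝ) ^ 2 ≤ n) :
    ((Bn n : ℕ) : ℝ) ^ 2 ≤ n := by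
  refine le_trans ?_ h
  push_cast
  have h1 : (1 : ℝ) ≤ (kn n : ℝ) := by exact_mod_cast hk
  have h0 : (0 : ℝ) ≤ (Bn n : ℝ) := Nat.cast_nonneg _
  have : (Bn n : ℝ) ≤ (Bn n : ℝ) * (kn n : ℝ) := by nlinarith
  exact pow_le_pow_left₀ h0 this 2

theorem pow_bound {s n : ℕ} (hs : 1 ≤ s) (hn1 : s ≤ n) (hh : hn n ^ 2 ≤ 1 / 2) :
    (1 - 2 * hn n ^ 2) ^ ((rsn n / s) ^ 2) ≤ Real.exp (-((2 / (s : ℝ) ^ 2) * rr n ^ 2)) := by
  have hs0 : (0 : ℝ) < s := by exact_mod_cast hs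
  have h0 : 0 ≤ 1 - 2 * hn n ^ 2 := by linarith
  have h1 : 1 - 2 * hn n ^ 2 ≤ Real.exp (-(2 * hn n ^ 2)) := by
    have := Real.add_one_le_exp (-(2 * hn n ^ 2))
    linarith
  calc (1 - 2 * hn n ^ 2) ^ ((rsn n / s) ^ 2)
      ≤ (Real.exp (-(2 * hn n ^ 2))) ^ ((rsn n / s) ^ 2) := pow_le_pow_left₀ h0 h1 _
    _ = Real.exp (-((2 / (s : ℝ) ^ 2) * rr n ^ 2)) := by
        rw [← Real.exp_nat_mul]
        congr 1
        push_cast
        rw [Nat.cast_div (dvd_rsn hs hn1) hs0.ne']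
        unfold rr
        field_simp

theorem addSeq (h1 : Spec_additive) (h2 : Spec_asymp) : Spec_addSeq := by
  intro Fn C hG ε hε
  obtain ⟨s, hs1, H⟩ := h1 Fn C hG ε hε
  obtain ⟨-, -, -, hexp, -, hall⟩ := h2
  have hs0 : (0 : ℝ) < s := by exact_mod_cast hs1
  have hc : (0 : ℝ) < 2 / (s : ℝ) ^ 2 := by positivity
  have hδ : (0 : ℝ) < min (1 / 4) (ε / 12) / (s : ℝ) ^ 2 := by positivity
  have hev : ∀ᶠ n : ℕ in atTop, (n : ℝ) * Real.exp (-((2 / (s : ℝ) ^ 2) * rr n ^ 2)) <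
      min (1 / 4) (ε / 12) / (s : ℝ) ^ 2 := (hexp _ hc).eventually (gt_mem_nhds hδ)
  filter_upwards [hev, hall, eventually_ge_atTop s] with n hn1 hn2 hn3
  obtain ⟨hh, hh2, -, hNh, -, hB, hk, -, -, hBk⟩ := hn2
  have hrs : 0 < rsn n := by
    unfold rsn
    exact Nat.mul_pos hk (Nat.factorial_pos n)
  have hcond : (((Bn n * s : ℕ) : ℝ)) ^ 2 * (1 - 2 * hn n ^ 2) ^ ((rsn n / s) ^ 2) ≤
      min (1 / 4) (ε / 12) := by
    have hb := Bn_sq_le hk hBk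
    have hp := pow_bound hs1 hn3 hh2
    calc (((Bn n * s : ℕ) : ℝ)) ^ 2 * (1 - 2 * hn n ^ 2) ^ ((rsn n / s) ^ 2)
        ≤ (((Bn n * s : ℕ) : ℝ)) ^ 2 * Real.exp (-((2 / (s : ℝ) ^ 2) * rr n ^ 2)) :=
          mul_le_mul_of_nonneg_left hp (sq_nonneg _)
      _ = (s : ℝ) ^ 2 * ((Bn n : ℝ) ^ 2 * Real.exp (-((2 / (s : ℝ) ^ 2) * rr n ^ 2))) := by
          push_cast; ring
      _ ≤ (s : ℝ) ^ 2 * ((n : ℝ) * Real.exp (-((2 / (s : ℝ) ^ 2) * rr n ^ 2))) := by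
          apply mul_le_mul_of_nonneg_left _ (sq_nonneg _)
          exact mul_le_mul_of_nonneg_right hb (Real.exp_pos _).le
      _ ≤ (s : ℝ) ^ 2 * (min (1 / 4) (ε / 12) / (s : ℝ) ^ 2) :=
          mul_le_mul_of_nonneg_left hn1.le (sq_nonneg _)
      _ = min (1 / 4) (ε / 12) := by field_simp
  obtain ⟨c, hc'⟩ := H (NN n) (Bn n) (rsn n) (hn n) rfl (dvd_rsn hs1 hn3) hrs hB hh hh2 hcond
  refine ⟨c, ?_⟩
  rw [hNh] at hc'
  exact hc'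

theorem bbLower (h1 : Spec_varLower) (h2 : Spec_asymp) : Spec_bbLower := by
  intro Fn C hG
  obtain ⟨K₁, c, hK, hc, H⟩ := h1 Fn C hG
  obtain ⟨-, -, -, -, hfac, hall⟩ := h2
  refine ⟨Real.sqrt (c / 4), Real.sqrt_pos.2 (by positivity), ?_⟩
  filter_upwards [hfac, hall, eventually_ge_atTop K₁] with n hn1 hn2 hn3
  obtain ⟨hh, hh2, -, hNh, -, hB, hk, -, hBk, -⟩ := hn2
  unfold bb
  rw [← Real.sqrt_mul (by positivity)]
  apply Real.sqrt_le_sqrt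
  unfold bsq
  have hj : ∀ j ∈ (univ : Finset (Fin (Bn n) × Fin (Bn n))), c * (kn n : ℝ) ^ 2 ≤
      Vr (bw (hn n ^ 2)) (fun ω : Site (NN n) → Bool =>
        Fj Fn (hn n) (rsn n) j ω - alph Fn n * (Nj (rsn n) j ω : ℝ)) := by
    intro j _
    exact H (NN n) (Bn n) (rsn n) (kn n) n.factorial (hn n) rfl rfl (Nat.dvd_factorial hK hn3)
      (Nat.factorial_pos n) hh hn1.1 hn1.2 hh2 j (alph Fn n)
  have hsum := Finset.card_nsmul_le_sum _ _ _ hj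
  rw [nsmul_eq_mul, Finset.card_univ, Fintype.card_prod, Fintype.card_fin] at hsum
  refine le_trans ?_ hsum
  push_cast at hBk ⊢
  have : (Bn n : ℝ) * (Bn n : ℝ) * (c * (kn n : ℝ) ^ 2) = c * ((Bn n : ℝ) * (kn n : ℝ)) ^ 2 := by
    ring
  rw [this]
  have := mul_le_mul_of_nonneg_left hBk hc.le
  linarith

end Pool.Agent.Helper16.Matching
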